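import Mathlib

/-!
# Houghton's group `H₂` is epiRegular but has no rational cross section

* Epiregularity: with `t` the translation, `S` the pointwise stabiliser of `0` and `1` and
  `r = (1 2)`, the non-translations of `H₂` are exactly `⟨t⟩ S r S ⟨t⟩`, and `S` is finitely
  generated.
* No rational cross section: in a finite automaton for a rational cross section, no word can
  visit twice the same state with the same translation length, because the loop would have
  finite order. Hence each level is visited boundedly often and only boundedly many negative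
  integers can be moved to nonnegative ones, contradicting surjectivity.
-/

set_option autoImplicit false

namespace Pool.Agent.Results.MP_cfc732_al.HoughtonTwo

open Computability Equiv

/-! ## Definitions used in the statement -/

/-- The value in `G` of a word over the finite subset `X` of `G`. -/
def ev {G : Type*} [Group G] {X : Finset G} (w : List X) : G :=
  (w.map (fun x : X => (x : G))).prod

/-- `G` is epiRegular: for some finite `X ⊆ G` generating `G` as a monoid there is a regular
language `L` of nonempty words over `X` whose set of values is `G \ {1}`. -/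
def EpiRegular (G : Type*) [Group G] : Prop :=
  ∃ X : Finset G, Submonoid.closure (X : Set G) = ⊤ ∧
    ∃ L : Language X, L.IsRegular ∧ [] ∉ L ∧ ev '' (L : Set (List X)) = ({1} : Set G)ᶜ

/-- `G` has a rational cross section: for some finite `X ⊆ G` generating `G` as a monoid there
is a regular language over `X` which evaluation maps bijectively onto `G`. -/
def HasRationalCrossSection (G : Type*) [Group G] : Prop :=
  ∃ X : Finset G, Submonoid.closure (X : Set G) = ⊤ ∧
    ∃ L : Language X, L.IsRegular ∧ Set.BijOn ev (L : Set (List X)) (Set.univ : Set G)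

/-! ## Regular languages -/



section Reg
variable {α : Type*}

/-- Words all of whose letters lie in `T`. -/
def lettersIn (T : Set α) : Language α := {w : List α | ∀ x ∈ w, x ∈ T}

theorem mem_lettersIn {T : Set α} {w : List α} : w ∈ lettersIn T ↔ ∀ x ∈ w, x ∈ T := Iff.rfl

open Classical in
theorem isRegular_lettersIn (T : Set α) : (lettersIn T).IsRegular := by
  refine ⟨Bool, inferInstance, ⟨fun b x => b && decide (x ∈ T), true, {true}⟩, ?_⟩
  ext w
  rw [DFA.mem_accepts]
  have key : ∀ (w : List α) (b : Bool),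
      (DFA.evalFrom (⟨fun b x => b && decide (x ∈ T), true, {true}⟩ : DFA α Bool) b w = true) ↔
        (b = true ∧ ∀ x ∈ w, x ∈ T) := by
    intro w
    induction w with
    | nil => intro b; simp
    | cons a w ih =>
      intro b
      rw [DFA.evalFrom_cons, ih]
      simp [and_assoc]
  have := key w true
  simp only [true_and] at this
  rw [mem_lettersIn, ← this]
  rfl

/-- Concatenation of regular languages is regular. -/
theorem isRegular_mul {L1 L2 : Language α} (h1 : L1.IsRegular) (h2 : L2.IsRegular) :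
    (L1 * L2).IsRegular := by
  classical
  obtain ⟨σ1, _, M1, rfl⟩ := h1
  obtain ⟨σ2, _, M2, rfl⟩ := h2
  -- states: current state of M1 and the set of states of M2 reached
  let N : DFA α (σ1 × Set σ2) :=
    { step := fun p a =>
        (M1.step p.1 a,
          ((fun q => M2.step q a) '' p.2) ∪ {q | q = M2.start ∧ M1.step p.1 a ∈ M1.accept})
      start := (M1.start, {q | q = M2.start ∧ M1.start ∈ M1.accept})
      accept := {p | ∃ q ∈ p.2, q ∈ M2.accept} }
  refine Language.isRegular_iff.2 ⟨σ1 × Set σ2, inferInstance, N, ?_⟩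
  have key : ∀ w : List α, (N.eval w).1 = M1.eval w ∧
      ∀ q, q ∈ (N.eval w).2 ↔ ∃ u v, u ++ v = w ∧ u ∈ M1.accepts ∧ M2.eval v = q := by
    intro w
    induction w using List.reverseRecOn with
    | nil =>
      refine ⟨rfl, fun q => ?_⟩
      constructor
      · rintro ⟨h1, h2⟩
        exact ⟨[], [], rfl, h2, h1.symm⟩
      · rintro ⟨u, v, huv, hu, hv⟩
        obtain ⟨rfl, rfl⟩ := List.append_eq_nil_iff.1 huv
        exact ⟨hv.symm, hu⟩
    | append_singleton w a ih =>
      obtain ⟨ih1, ih2⟩ := ih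
      have hs : N.eval (w ++ [a]) = N.step (N.eval w) a := by
        simp [DFA.eval, DFA.evalFrom_of_append]
      refine ⟨?_, fun q => ?_⟩
      · rw [hs]
        change M1.step (N.eval w).1 a = _
        rw [ih1]
        simp [DFA.eval, DFA.evalFrom_of_append]
      · rw [hs]
        change (q ∈ ((fun q => M2.step q a) '' (N.eval w).2) ∪
          {q | q = M2.start ∧ M1.step (N.eval w).1 a ∈ M1.accept}) ↔ _
        rw [ih1]
        constructor
        · rintro (⟨q', hq', rfl⟩ | ⟨hq1, hq2⟩)
          · obtain ⟨u, v, huv, hu, hv⟩ := (ih2 q').1 hq'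
            refine ⟨u, v ++ [a], by rw [← List.append_assoc, huv], hu, ?_⟩
            simp only [DFA.eval, DFA.evalFrom_of_append] at hv ⊢
            rw [hv]; rfl
          · refine ⟨w ++ [a], [], by simp, ?_, hq1.symm⟩
            change M1.eval (w ++ [a]) ∈ M1.accept
            simpa [DFA.eval, DFA.evalFrom_of_append] using hq2
        · rintro ⟨u, v, huv, hu, hv⟩
          rcases List.eq_nil_or_concat v with rfl | ⟨v', b, rfl⟩
          · right
            simp only [List.append_nil] at huv
            subst huv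
            refine ⟨hv.symm, ?_⟩
            have hu' : M1.eval (w ++ [a]) ∈ M1.accept := hu
            simpa [DFA.eval, DFA.evalFrom_of_append] using hu'
          · left
            simp only [List.concat_eq_append, ← List.append_assoc] at huv
            obtain ⟨h1, h2⟩ := List.append_inj' huv rfl
            obtain rfl : b = a := by simpa using h2
            refine ⟨M2.eval v', (ih2 _).2 ⟨u, v', h1, hu, rfl⟩, ?_⟩
            rw [← hv]
            simp [DFA.eval, DFA.evalFrom_of_append]
  ext w
  constructor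
  · intro hw
    obtain ⟨q, hq, hq2⟩ : ∃ q ∈ (N.eval w).2, q ∈ M2.accept := hw
    obtain ⟨u, v, huv, hu, hv⟩ := ((key w).2 q).1 hq
    refine Language.mem_mul.2 ⟨u, hu, v, ?_, huv⟩
    change M2.eval v ∈ M2.accept
    rw [hv]; exact hq2
  · intro hw
    obtain ⟨u, hu, v, hv, huv⟩ := Language.mem_mul.1 hw
    exact ⟨M2.eval v, ((key w).2 _).2 ⟨u, v, huv, hu, rfl⟩, hv⟩

/-- Nonempty words all of whose letters lie in `T`. -/
def plusIn (T : Set α) : Language α := {w : List α | w ≠ [] ∧ ∀ x ∈ w, x ∈ T}

/-- Nonempty words. -/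
def nonemptyWords (α : Type*) : Language α := {w : List α | w ≠ []}

theorem isRegular_nonempty : (nonemptyWords α).IsRegular := by
  refine ⟨Bool, inferInstance, ⟨fun _ _ => true, false, {true}⟩, ?_⟩
  ext w
  rcases List.eq_nil_or_concat w with rfl | ⟨v, b, rfl⟩
  · constructor
    · intro h
      exact absurd (show (false : Bool) = true from h) (by decide)
    · intro h
      exact absurd rfl h
  · constructor
    · intro _
      show v.concat b ≠ []
      simp
    · intro _
      change DFA.evalFrom _ _ _ = true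
      simp [DFA.evalFrom_of_append]

theorem isRegular_plusIn (T : Set α) : (plusIn T).IsRegular := by
  have := (isRegular_nonempty (α := α)).inf (isRegular_lettersIn T)
  convert this using 1
  ext w
  exact Iff.rfl

/-- The language consisting of the one-letter word `r`. -/
def singleWord (r : α) : Language α := {w : List α | w = [r]}

open Classical in
theorem isRegular_single (r : α) : (singleWord r).IsRegular := by
  have h1 := isRegular_plusIn ({r} : Set α)
  have h2 := isRegular_mul h1 h1
  have h3 := h1.inf h2.compl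
  convert h3 using 1
  ext w
  constructor
  · intro hw
    have hw' : w = [r] := hw
    subst hw'
    refine ⟨⟨by simp, by simp⟩, ?_⟩
    intro h
    obtain ⟨u, hu, v, hv, huv⟩ := Language.mem_mul.1 h
    have hl := congrArg List.length huv
    have := List.length_pos_iff.2 hu.1
    have := List.length_pos_iff.2 hv.1
    simp at hl
    omega
  · rintro ⟨⟨h1, h2⟩, h3⟩
    show w = [r]
    match w, h1, h2, h3 with
    | [a], _, h2, _ =>
      have := h2 a (by simp)
      simp at this
      rw [this]
    | a :: b :: w, _, h2, h3 =>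
      exfalso
      apply h3
      refine Language.mem_mul.2 ⟨[a], ⟨by simp, fun x hx => h2 x ?_⟩, b :: w, ⟨by simp, fun x hx => h2 x ?_⟩, rfl⟩
      · simp at hx; simp [hx]
      · simp at hx ⊢; tauto

end Reg


/-! ## Permutations of the integers -/



/-- `g` moves all but finitely many integers by `n`. -/
def ShiftBy (g : Perm ℤ) (n : ℤ) : Prop := {j : ℤ | g j ≠ j + n}.Finite

theorem shiftBy_one : ShiftBy 1 0 := by
  simp [ShiftBy]

theorem ShiftBy.mul {g h : Perm ℤ} {n m : ℤ} (hg : ShiftBy g n) (hh : ShiftBy h m) :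
    ShiftBy (g * h) (n + m) := by
  unfold ShiftBy at *
  refine (hh.union (hg.preimage (f := h) (h.injective.injOn))).subset ?_
  intro j hj
  by_contra hcon
  simp only [Set.mem_union, Set.mem_ofPred_eq, Set.mem_preimage, not_or, not_not] at hcon
  apply hj
  rw [Perm.mul_apply, hcon.2, hcon.1]
  ring

theorem ShiftBy.inv {g : Perm ℤ} {n : ℤ} (hg : ShiftBy g n) : ShiftBy g⁻¹ (-n) := by
  unfold ShiftBy at *
  refine (hg.image (fun j => g j)).subset ?_
  intro j hj
  refine ⟨g⁻¹ j, ?_, by simp⟩
  intro hcon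
  apply hj
  have h1 : g (g⁻¹ j) = j := Equiv.apply_symm_apply g j
  rw [h1] at hcon
  linarith

theorem ShiftBy.unique {g : Perm ℤ} {n m : ℤ} (hn : ShiftBy g n) (hm : ShiftBy g m) : n = m := by
  by_contra hne
  have : (Set.univ : Set ℤ).Finite := by
    refine (hn.union hm).subset ?_
    intro j _
    by_contra hcon
    simp only [Set.mem_union, Set.mem_ofPred_eq, not_or, not_not] at hcon
    apply hne
    have := hcon.1.symm.trans hcon.2
    linarith
  exact Set.infinite_univ this

/-- The second Houghton group: permutations of `ℤ` that agree with a translation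
outside a finite set. -/
def houghtonTwo : Subgroup (Perm ℤ) where
  carrier := {g | ∃ n : ℤ, {j : ℤ | g j ≠ j + n}.Finite}
  mul_mem' := by
    rintro g h ⟨n, hn⟩ ⟨m, hm⟩
    exact ⟨n + m, ShiftBy.mul hn hm⟩
  one_mem' := ⟨0, shiftBy_one⟩
  inv_mem' := by
    rintro g ⟨n, hn⟩
    exact ⟨-n, ShiftBy.inv hn⟩

theorem mem_houghtonTwo {g : Perm ℤ} : g ∈ houghtonTwo ↔ ∃ n, ShiftBy g n := Iff.rfl

/-- A permutation of finite support has finite order. -/
theorem pow_eq_one_of_shift_zero {g : Perm ℤ} (hg : ShiftBy g 0) : ∃ m : ℕ, 0 < m ∧ g ^ m = 1 := by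
  classical
  have hfin : {j : ℤ | g j ≠ j}.Finite := by
    simpa [ShiftBy] using hg
  have : Finite {j : ℤ // g j ≠ j} := hfin
  have hinv : ∀ x, g x ≠ x ↔ g (g x) ≠ g x := by
    intro x; constructor
    · intro h h2; exact h (g.injective h2)
    · intro h h2; apply h; rw [h2]; exact h2
  let f : Perm {j : ℤ // g j ≠ j} := g.subtypePerm (fun x => (hinv x).symm)
  obtain ⟨m, hm, hfm⟩ := (isOfFinOrder_iff_pow_eq_one).1 (isOfFinOrder_of_finite f)
  refine ⟨m, hm, ?_⟩
  ext x
  by_cases hx : g x = x
  · have : ∀ k : ℕ, (g ^ k) x = x := by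
      intro k
      induction k with
      | zero => simp
      | succ k ih => rw [pow_succ, Perm.mul_apply, hx, ih]
    rw [this]; simp
  · have h2 : ∀ k : ℕ, ((f ^ k) ⟨x, hx⟩ : ℤ) = (g ^ k) x := by
      intro k
      rw [Perm.subtypePerm_pow]
      rfl
    rw [← h2, hfm]; simp

/-- Subgroups containing `τ` and `swap a (τ a)` contain every finitely supported permutation
whose support lies in the `τ`-orbit of `a`. -/
theorem mem_of_finite_support (H : Subgroup (Perm ℤ)) (τ : Perm ℤ) (a : ℤ) (hτ : τ ∈ H)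
    (hs : swap a (τ a) ∈ H) (g : Perm ℤ) (hfin : ShiftBy g 0)
    (horb : ∀ x, g x ≠ x → ∃ i : ℤ, (τ ^ i) a = x) (hne : ∀ i : ℤ, (τ ^ i) a ≠ (τ ^ (i + 1)) a) :
    g ∈ H := by
  classical
  set S : Set (Perm ℤ) := {f | ∃ i : ℤ, f = swap ((τ ^ i) a) ((τ ^ (i + 1)) a)} with hS
  have hSswap : ∀ f ∈ S, f.IsSwap := by
    rintro f ⟨i, rfl⟩
    exact ⟨_, _, hne i, rfl⟩
  have hSH : Subgroup.closure S ≤ H := by
    rw [Subgroup.closure_le]
    rintro f ⟨i, rfl⟩
    have : swap ((τ ^ i) a) ((τ ^ (i + 1)) a) = τ ^ i * swap a (τ a) * (τ ^ i)⁻¹ := by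
      rw [← swap_apply_apply (τ ^ i), zpow_add_one, Perm.mul_apply]
    rw [this]
    exact H.mul_mem (H.mul_mem (H.zpow_mem hτ i) hs) (H.inv_mem (H.zpow_mem hτ i))
  apply hSH
  rw [mem_closure_isSwap hSswap]
  refine ⟨?_, fun x => ?_⟩
  · have hfin' : {j : ℤ | g j ≠ j + 0}.Finite := hfin
    refine hfin'.subset ?_
    intro j hj
    simpa using hj
  · have hstep : ∀ i : ℤ, (τ ^ (i + 1)) a ∈ MulAction.orbit (Subgroup.closure S) ((τ ^ i) a) := by
      intro i
      refine ⟨⟨swap ((τ ^ i) a) ((τ ^ (i + 1)) a), Subgroup.subset_closure ⟨i, rfl⟩⟩, ?_⟩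
      exact swap_apply_left _ _
    have hall : ∀ i : ℤ, (τ ^ i) a ∈ MulAction.orbit (Subgroup.closure S) a := by
      intro i
      induction i using Int.induction_on with
      | zero => simp
      | succ i ih =>
        rw [← MulAction.orbit_eq_iff] at ih ⊢
        rw [← ih]
        exact MulAction.orbit_eq_iff.2 (hstep i)
      | pred i ih =>
        rw [← MulAction.orbit_eq_iff] at ih ⊢
        rw [← ih]
        have := MulAction.orbit_eq_iff.2 (hstep (-(i:ℤ) - 1))
        simp only [sub_add_cancel] at this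
        exact this.symm
    by_cases hx : g x = x
    · rw [hx]; exact MulAction.mem_orbit_self _
    · obtain ⟨i, hi⟩ := horb x hx
      obtain ⟨k, hk⟩ := horb (g x) (fun h => hx (g.injective h))
      rw [← MulAction.orbit_eq_iff, ← hi, ← hk] at *
      rw [MulAction.orbit_eq_iff.2 (hall i), MulAction.orbit_eq_iff.2 (hall k)]


/-- The translation `j ↦ j + 1`. -/
def tt : Perm ℤ := Equiv.addRight 1

@[simp] theorem tt_apply (j : ℤ) : tt j = j + 1 := rfl

theorem tt_zpow (n j : ℤ) : (tt ^ n) j = j + n := by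
  induction n using Int.induction_on generalizing j with
  | zero => simp
  | succ n ih => rw [zpow_add_one, Perm.mul_apply, ih, tt_apply]; ring
  | pred n ih =>
    rw [zpow_sub_one, Perm.mul_apply, ih]
    have : tt⁻¹ j = j - 1 := rfl
    rw [this]; ring

theorem shift_tt : ShiftBy tt 1 := by
  simp [ShiftBy]

/-- The translation that skips `0` and `1`. -/
def ss : Perm ℤ where
  toFun j := if j = 0 then 0 else if j = 1 then 1 else if j = -1 then 2 else j + 1
  invFun j := if j = 0 then 0 else if j = 1 then 1 else if j = 2 then -1 else j - 1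
  left_inv j := by grind
  right_inv j := by grind

theorem ss_apply (j : ℤ) :
    ss j = if j = 0 then 0 else if j = 1 then 1 else if j = -1 then 2 else j + 1 := rfl

theorem ss_inv_apply (j : ℤ) :
    ss⁻¹ j = if j = 0 then 0 else if j = 1 then 1 else if j = 2 then -1 else j - 1 := rfl

theorem shift_ss : ShiftBy ss 1 := by
  refine (Set.toFinite ({0, 1, -1} : Set ℤ)).subset ?_
  intro j hj
  by_contra hcon
  apply hj
  rw [ss_apply]
  simp only [Set.mem_insert_iff, Set.mem_singleton_iff, not_or] at hcon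
  rw [if_neg hcon.1, if_neg hcon.2.1, if_neg hcon.2.2]

theorem ss_orbit (x : ℤ) (h0 : x ≠ 0) (h1 : x ≠ 1) : ∃ i : ℤ, (ss ^ i) 2 = x := by
  have hpos : ∀ n : ℕ, (ss ^ (n : ℤ)) 2 = n + 2 := by
    intro n
    induction n with
    | zero => simp
    | succ n ih =>
      push_cast
      rw [add_comm, zpow_add, zpow_one, Perm.mul_apply, ih, ss_apply]
      grind
  have hneg : ∀ n : ℕ, (ss ^ (-(n : ℤ) - 1)) 2 = -(n : ℤ) - 1 := by
    intro n
    induction n with
    | zero => simp [ss_inv_apply]
    | succ n ih =>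
      have : (-((n + 1 : ℕ) : ℤ) - 1) = -1 + (-(n : ℤ) - 1) := by push_cast; ring
      rw [this, zpow_add, zpow_neg_one, Perm.mul_apply, ih, ss_inv_apply]
      grind
  rcases lt_or_ge x 0 with hx | hx
  · refine ⟨x, ?_⟩
    have := hneg (-x - 1).toNat
    rw [Int.toNat_of_nonneg (by omega)] at this
    simpa using this
  · refine ⟨x - 2, ?_⟩
    have := hpos (x - 2).toNat
    rw [Int.toNat_of_nonneg (by omega)] at this
    simpa using this

theorem ss_zpow_ne (i : ℤ) : (ss ^ i) 2 ≠ (ss ^ (i + 1)) 2 := by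
  intro h
  rw [zpow_add_one, Perm.mul_apply] at h
  have := (ss ^ i).injective h
  rw [ss_apply] at this
  norm_num at this

theorem ss_zpow_zero (i : ℤ) : (ss ^ i) 0 = 0 := by
  have h : ss 0 = 0 := rfl
  exact Function.IsFixedPt.perm_zpow h i

theorem ss_zpow_one (i : ℤ) : (ss ^ i) 1 = 1 := by
  have h : ss 1 = 1 := rfl
  exact Function.IsFixedPt.perm_zpow h i

theorem shift_zpow {g : Perm ℤ} (hg : ShiftBy g 1) (n : ℤ) : ShiftBy (g ^ n) n := by
  induction n using Int.induction_on with
  | zero => simpa using shiftBy_one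
  | succ n ih => rw [zpow_add_one]; exact ih.mul hg
  | pred n ih => rw [zpow_sub_one]; exact ih.mul hg.inv

/-- Every element of `houghtonTwo` lies in each subgroup containing `tt` and `swap 0 1`. -/
theorem mem_of_houghton (H : Subgroup (Perm ℤ)) (h1 : tt ∈ H) (h2 : swap 0 1 ∈ H)
    {g : Perm ℤ} (hg : g ∈ houghtonTwo) : g ∈ H := by
  obtain ⟨n, hn⟩ := hg
  have hn' : ShiftBy g n := hn
  have : g * tt ^ (-n) ∈ H := by
    refine mem_of_finite_support H tt 0 h1 (by simpa using h2) _ ?_ ?_ ?_
    · have := hn'.mul (shift_zpow shift_tt (-n))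
      simpa using this
    · intro x _
      exact ⟨x, by rw [tt_zpow]; simp⟩
    · intro i
      rw [tt_zpow, tt_zpow]
      simp
  have h3 := H.mul_mem this (H.zpow_mem h1 n)
  simpa [mul_assoc, ← zpow_add] using h3

/-- Every element of `houghtonTwo` fixing `0` and `1` lies in each subgroup containing `ss` and
`swap 2 3`. -/
theorem mem_of_stab (H : Subgroup (Perm ℤ)) (h1 : ss ∈ H) (h2 : swap 2 3 ∈ H)
    {g : Perm ℤ} (hg : g ∈ houghtonTwo) (g0 : g 0 = 0) (g1 : g 1 = 1) : g ∈ H := by
  obtain ⟨n, hn⟩ := hg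
  have hn' : ShiftBy g n := hn
  have : g * ss ^ (-n) ∈ H := by
    refine mem_of_finite_support H ss 2 h1 (by simpa [ss_apply] using h2) _ ?_ ?_ ss_zpow_ne
    · have := hn'.mul (shift_zpow shift_ss (-n))
      simpa using this
    · intro x hx
      apply ss_orbit
      · rintro rfl
        apply hx
        rw [Perm.mul_apply, ss_zpow_zero, g0]
      · rintro rfl
        apply hx
        rw [Perm.mul_apply, ss_zpow_one, g1]
  have h3 := H.mul_mem this (H.zpow_mem h1 n)
  simpa [mul_assoc, ← zpow_add] using h3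


/-- Elements of `houghtonTwo` that are not translations factor through the two point stabiliser. -/
theorem decomp {g : Perm ℤ} (hg : g ∈ houghtonTwo) :
    (∃ n : ℤ, g = tt ^ n) ∨ ∃ a b : ℤ, ∃ u v : Perm ℤ, u ∈ houghtonTwo ∧ v ∈ houghtonTwo ∧
      u 0 = 0 ∧ u 1 = 1 ∧ v 0 = 0 ∧ v 1 = 1 ∧ g = tt ^ a * u * swap 1 2 * v * tt ^ b := by
  classical
  obtain ⟨n, hn⟩ := hg
  by_cases hE : {j : ℤ | g j ≠ j + n} = ∅
  · left
    refine ⟨n, ?_⟩
    ext j
    rw [tt_zpow]
    by_contra hcon
    have : j ∈ {j : ℤ | g j ≠ j + n} := hcon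
    rw [hE] at this
    exact this
  · right
    obtain ⟨i, hi, hmin⟩ := Set.exists_min_image {j : ℤ | g j ≠ j + n} id hn
      (Set.nonempty_iff_ne_empty.2 hE)
    have hi' : g i ≠ i + n := hi
    have hi1 : g (i - 1) = (i - 1) + n := by
      by_contra hcon
      have := hmin (i - 1) hcon
      simp at this
    set g' : Perm ℤ := tt ^ (-(i - 1 + n)) * g * tt ^ (i - 1) with hg'
    have e0 : g' 0 = 0 := by
      simp only [hg', Perm.mul_apply, tt_zpow, zero_add, hi1]
      ring
    have e1 : g' 1 ≠ 1 := by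
      simp only [hg', Perm.mul_apply, tt_zpow]
      intro h
      apply hi'
      have : (1 : ℤ) + (i - 1) = i := by ring
      rw [this] at h
      linarith
    set b : ℤ := g'⁻¹ 1 with hb
    have hgb : g' b = 1 := Equiv.apply_symm_apply g' 1
    have hb0 : b ≠ 0 := by
      intro h; rw [h, e0] at hgb; exact absurd hgb (by decide)
    have hb1 : b ≠ 1 := by
      intro h; rw [h] at hgb; exact e1 hgb
    have hmemg : g ∈ houghtonTwo := ⟨n, hn⟩
    have htt : tt ∈ houghtonTwo := ⟨1, shift_tt⟩
    have hsw : ∀ x y : ℤ, swap x y ∈ houghtonTwo := by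
      intro x y
      refine ⟨0, (Set.toFinite ({x, y} : Set ℤ)).subset ?_⟩
      intro j hj
      by_contra hcon
      apply hj
      simp only [Set.mem_insert_iff, Set.mem_singleton_iff, not_or] at hcon
      rw [swap_apply_of_ne_of_ne hcon.1 hcon.2]; simp
    have hmemg' : g' ∈ houghtonTwo :=
      houghtonTwo.mul_mem (houghtonTwo.mul_mem (houghtonTwo.zpow_mem htt _) hmemg)
        (houghtonTwo.zpow_mem htt _)
    refine ⟨i - 1 + n, -(i - 1), g' * swap b 2 * swap 1 2, swap b 2, ?_, hsw _ _, ?_, ?_, ?_, ?_, ?_⟩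
    · exact houghtonTwo.mul_mem (houghtonTwo.mul_mem hmemg' (hsw _ _)) (hsw _ _)
    · simp only [Perm.mul_apply]
      have h12 : (swap (1 : ℤ) 2) 0 = 0 := swap_apply_of_ne_of_ne (by decide) (by decide)
      rw [h12, swap_apply_of_ne_of_ne hb0.symm (by decide), e0]
    · simp only [Perm.mul_apply]
      rw [swap_apply_left, swap_apply_right, hgb]
    · rw [swap_apply_of_ne_of_ne hb0.symm (by decide)]
    · rw [swap_apply_of_ne_of_ne hb1.symm (by decide)]
    · have h1 : g' * swap b 2 * swap 1 2 * swap 1 2 * swap b 2 = g' := by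
        rw [mul_assoc (g' * swap b 2), swap_mul_self, mul_one, mul_assoc, swap_mul_self, mul_one]
      calc g = tt ^ (i - 1 + n) * g' * tt ^ (-(i - 1)) := by
            rw [hg']; group
        _ = tt ^ (i - 1 + n) * (g' * swap b 2 * swap 1 2 * swap 1 2 * swap b 2) * tt ^ (-(i - 1)) := by
            rw [h1]
        _ = _ := by simp only [mul_assoc]

theorem nontriv {a b : ℤ} {u v : Perm ℤ} (hu0 : u 0 = 0) (hu1 : u 1 = 1) (hv0 : v 0 = 0)
    (hv1 : v 1 = 1) : tt ^ a * u * swap 1 2 * v * tt ^ b ≠ 1 := by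
  intro h
  have h2 : u * swap 1 2 * v = tt ^ (-a - b) := by
    calc u * swap 1 2 * v = tt ^ (-a) * (tt ^ a * u * swap 1 2 * v * tt ^ b) * tt ^ (-b) := by group
      _ = _ := by rw [h]; group
  have h3 := congrArg (fun f : Perm ℤ => f 0) h2
  simp only [Perm.mul_apply, hv0, tt_zpow] at h3
  rw [swap_apply_of_ne_of_ne (by decide) (by decide), hu0] at h3
  have h4 := congrArg (fun f : Perm ℤ => f 1) h2
  simp only [Perm.mul_apply, hv1, tt_zpow] at h4
  rw [swap_apply_left] at h4
  have h5 : u 2 = u 1 := by rw [h4, hu1]; linarith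
  exact absurd (u.injective h5) (by decide)

theorem tt_zpow_ne_one {n : ℤ} (hn : n ≠ 0) : tt ^ n ≠ 1 := by
  intro h
  have h3 := congrArg (fun f : Perm ℤ => f 0) h
  simp only [tt_zpow] at h3
  apply hn
  simpa using h3


/-! ## No rational cross section -/




theorem ev_nil {G : Type*} [Group G] {X : Finset G} : ev ([] : List X) = 1 := rfl

theorem ev_append {G : Type*} [Group G] {X : Finset G} (u v : List X) :
    ev (u ++ v) = ev u * ev v := by
  simp [ev]

theorem ev_singleton {G : Type*} [Group G] {X : Finset G} (x : X) : ev [x] = (x : G) := by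
  simp [ev]

theorem ev_cons {G : Type*} [Group G] {X : Finset G} (x : X) (w : List X) :
    ev (x :: w) = (x : G) * ev w := by
  simp [ev]

/-- the translation length of an element of `houghtonTwo` -/
noncomputable def ht (g : houghtonTwo) : ℤ := Classical.choose (mem_houghtonTwo.1 g.2)

theorem ht_spec (g : houghtonTwo) : ShiftBy g.1 (ht g) := Classical.choose_spec (mem_houghtonTwo.1 g.2)

theorem ht_mul (g h : houghtonTwo) : ht (g * h) = ht g + ht h :=
  ShiftBy.unique (ht_spec (g * h)) ((ht_spec g).mul (ht_spec h))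

theorem ht_one : ht 1 = 0 := ShiftBy.unique (ht_spec 1) shiftBy_one

/-- integers crossing from the negative side to the nonnegative side, relative to the shift `h` -/
def Cset (g : Perm ℤ) (h : ℤ) : Set ℤ := {j : ℤ | j + h < 0 ∧ 0 ≤ g j}

theorem Cset_finite {g : Perm ℤ} {h : ℤ} (hg : ShiftBy g h) : (Cset g h).Finite := by
  refine Set.Finite.subset hg ?_
  rintro j ⟨h1, h2⟩ h3
  omega

theorem Cset_mul (g x : Perm ℤ) (h τ : ℤ) :
    Cset (g * x) (h + τ) ⊆ x ⁻¹' (Cset g h) ∪ {j : ℤ | j + τ + h < 0 ∧ 0 ≤ x j + h} := by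
  rintro j ⟨h1, h2⟩
  by_cases h3 : x j + h < 0
  · left; exact ⟨h3, h2⟩
  · right; exact ⟨by omega, by omega⟩

theorem exists_bounds (X : Finset houghtonTwo) : ∃ D E : ℕ, ∀ x ∈ X, ∀ h : ℤ,
    {j : ℤ | j + ht x + h < 0 ∧ 0 ≤ x.1 j + h}.ncard ≤ E ∧
    ((D : ℤ) < |h| → {j : ℤ | j + ht x + h < 0 ∧ 0 ≤ x.1 j + h}.ncard = 0) := by
  classical
  have h1 : ∀ x : houghtonTwo, ∃ D : ℕ, ∀ j : ℤ, x.1 j ≠ j + ht x → |x.1 j| ≤ D ∧ |j + ht x| ≤ D := by
    intro x
    have hfin : {j : ℤ | x.1 j ≠ j + ht x}.Finite := ht_spec x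
    obtain ⟨B, hB⟩ := (hfin.image (fun j => max |x.1 j| |j + ht x|)).bddAbove
    refine ⟨B.toNat, fun j hj => ?_⟩
    have := hB ⟨j, hj, rfl⟩
    simp only at this
    have h2 := le_max_left |x.1 j| |j + ht x|
    have h3 := le_max_right |x.1 j| |j + ht x|
    have h4 := Int.self_le_toNat B
    constructor <;> omega
  choose D hD using h1
  refine ⟨X.sup D, X.sup (fun x => {j : ℤ | x.1 j ≠ j + ht x}.ncard), fun x hx h => ?_⟩
  have hfin : {j : ℤ | x.1 j ≠ j + ht x}.Finite := ht_spec x
  have hsub : {j : ℤ | j + ht x + h < 0 ∧ 0 ≤ x.1 j + h} ⊆ {j : ℤ | x.1 j ≠ j + ht x} := by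
    rintro j ⟨h1, h2⟩ h3
    omega
  refine ⟨(Set.ncard_le_ncard hsub hfin).trans
    (Finset.le_sup (f := fun x : houghtonTwo => {j : ℤ | x.1 j ≠ j + ht x}.ncard) hx), fun hh => ?_⟩
  rw [Set.ncard_eq_zero (hfin.subset hsub)]
  ext j
  simp only [Set.mem_ofPred_eq, Set.mem_empty_iff_false, iff_false]
  rintro ⟨h1, h2⟩
  obtain ⟨h3, h4⟩ := hD x j (hsub ⟨h1, h2⟩)
  have h5 : D x ≤ X.sup D := Finset.le_sup hx
  rw [abs_le] at h3 h4
  rw [lt_abs] at hh
  have h6 : (D x : ℤ) ≤ ((X.sup D : ℕ) : ℤ) := by exact_mod_cast h5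
  omega

theorem crossing_bound (X : Finset houghtonTwo) (D E : ℕ)
    (hDE : ∀ x ∈ X, ∀ h : ℤ,
      {j : ℤ | j + ht x + h < 0 ∧ 0 ≤ x.1 j + h}.ncard ≤ E ∧
      ((D : ℤ) < |h| → {j : ℤ | j + ht x + h < 0 ∧ 0 ≤ x.1 j + h}.ncard = 0)) (w : List X) :
    (Cset (ev w).1 (ht (ev w))).ncard ≤
      E * ((Finset.range w.length).filter (fun i => |ht (ev (w.take i))| ≤ (D : ℤ))).card := by
  classical
  induction w using List.reverseRecOn with
  | nil =>
    have : Cset (ev ([] : List X)).1 (ht (ev ([] : List X))) = ∅ := by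
      ext j
      rw [ev_nil, ht_one]
      simp [Cset]
    rw [this]; simp
  | append_singleton w x ih =>
    rw [ev_append, ev_singleton, ht_mul]
    have hB := hDE x.1 x.2 (ht (ev w))
    have hsub := Cset_mul (ev w).1 x.1.1 (ht (ev w)) (ht x.1)
    have hBfin : {j : ℤ | j + ht x.1 + ht (ev w) < 0 ∧ 0 ≤ x.1.1 j + ht (ev w)}.Finite := by
      refine Set.Finite.subset (ht_spec x.1) ?_
      rintro j ⟨h1, h2⟩ h3
      omega
    have hCfin := Cset_finite (ht_spec (ev w))
    have hpre : (x.1.1 ⁻¹' (Cset (ev w).1 (ht (ev w)))).Finite :=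
      hCfin.preimage x.1.1.injective.injOn
    have h1 := Set.ncard_le_ncard hsub (hpre.union hBfin)
    have h2 := Set.ncard_union_le (x.1.1 ⁻¹' (Cset (ev w).1 (ht (ev w))))
      {j : ℤ | j + ht x.1 + ht (ev w) < 0 ∧ 0 ≤ x.1.1 j + ht (ev w)}
    have h3 : (x.1.1 ⁻¹' (Cset (ev w).1 (ht (ev w)))).ncard = (Cset (ev w).1 (ht (ev w))).ncard :=
      Set.ncard_preimage_of_injective_subset_range x.1.1.injective
        (by rw [x.1.1.surjective.range_eq]; exact Set.subset_univ _)
    have h4 : ((Finset.range (w ++ [x]).length).filter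
        (fun i => |ht (ev ((w ++ [x]).take i))| ≤ (D : ℤ))).card =
        ((Finset.range w.length).filter (fun i => |ht (ev (w.take i))| ≤ (D : ℤ))).card +
          (if |ht (ev w)| ≤ (D : ℤ) then 1 else 0) := by
      have hl : (w ++ [x]).length = w.length + 1 := by simp
      rw [hl, Finset.range_add_one, Finset.filter_insert]
      have he : (Finset.range w.length).filter (fun i => |ht (ev ((w ++ [x]).take i))| ≤ (D : ℤ)) =
          (Finset.range w.length).filter (fun i => |ht (ev (w.take i))| ≤ (D : ℤ)) := by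
        apply Finset.filter_congr
        intro i hi
        rw [List.take_append_of_le_length (Finset.mem_range.1 hi).le]
      rw [he, List.take_left]
      split_ifs with hc
      · rw [Finset.card_insert_of_notMem (by simp)]
      · simp
    rw [h4, mul_add]
    have h5 : {j : ℤ | j + ht x.1 + ht (ev w) < 0 ∧ 0 ≤ x.1.1 j + ht (ev w)}.ncard ≤
        E * (if |ht (ev w)| ≤ (D : ℤ) then 1 else 0) := by
      split_ifs with hc
      · simpa using hB.1
      · rw [hB.2 (by omega)]; simp
    have h6 : Cset (ev w * x.1).1 (ht (ev w) + ht x.1) =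
      Cset ((ev w).1 * x.1.1) (ht (ev w) + ht x.1) := rfl
    rw [h6]
    omega

/-- An integer reversal on `[-N, N]`. -/
def flipN (N : ℕ) : Perm ℤ :=
  Function.Involutive.toPerm (fun j : ℤ => if |j| ≤ N then -j else j) (by
    intro j
    simp only
    by_cases h : |j| ≤ N
    · rw [if_pos h, abs_neg, if_pos h, neg_neg]
    · rw [if_neg h, if_neg h])

theorem flipN_apply (N : ℕ) (j : ℤ) : flipN N j = if |j| ≤ N then -j else j := rfl

theorem shift_flipN (N : ℕ) : ShiftBy (flipN N) 0 := by
  refine (Set.finite_Icc (-(N : ℤ)) N).subset ?_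
  intro j hj
  by_contra hcon
  apply hj
  rw [Set.mem_Icc, ← abs_le] at hcon
  rw [flipN_apply, if_neg hcon, add_zero]

theorem ncard_flipN (N : ℕ) : N ≤ (Cset (flipN N) 0).ncard := by
  have h : Set.Ico (-(N : ℤ)) 0 ⊆ Cset (flipN N) 0 := by
    intro j hj
    rw [Set.mem_Ico] at hj
    refine ⟨by omega, ?_⟩
    rw [flipN_apply, if_pos (abs_le.2 ⟨by omega, by omega⟩)]
    omega
  have h2 := Set.ncard_le_ncard h (Cset_finite (shift_flipN N))
  rw [← Finset.coe_Ico, Set.ncard_coe_finset] at h2
  simpa using h2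

theorem no_cross (X : Finset houghtonTwo) (L : Language X) (hL : L.IsRegular)
    (hbij : Set.BijOn ev (L : Set (List X)) (Set.univ : Set houghtonTwo)) : False := by
  classical
  obtain ⟨σ, _, M, rfl⟩ := hL
  obtain ⟨D, E, hDE⟩ := exists_bounds X
  -- no repetition of (state, height)
  have key : ∀ w ∈ M.accepts, ∀ i j : ℕ, i < j → j ≤ w.length →
      M.eval (w.take i) = M.eval (w.take j) → ht (ev (w.take i)) = ht (ev (w.take j)) → False := by
    intro w hw i j hij hj hstate hheight
    set u := (w.drop i).take (j - i) with hu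
    have hu_len : u.length = j - i := by
      rw [hu, List.length_take, List.length_drop]; omega
    have htj : w.take j = w.take i ++ u := by
      rw [hu]
      have : j = i + (j - i) := by omega
      conv_lhs => rw [this, List.take_add]
    have hw_split : w = w.take i ++ (u ++ w.drop j) := by
      rw [← List.append_assoc, ← htj, List.take_append_drop]
    have h0 : ht (ev u) = 0 := by
      have := hheight
      rw [htj, ev_append, ht_mul] at this
      linarith
    obtain ⟨m, hm, hpow⟩ := pow_eq_one_of_shift_zero (g := (ev u).1) (by rw [← h0]; exact ht_spec _)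
    have hpow' : (ev u) ^ m = 1 := Subtype.ext (by simpa using hpow)
    -- state loop
    set q := M.eval (w.take i) with hq
    have hloop : M.evalFrom q u = q := by
      have : M.eval (w.take j) = M.evalFrom q u := by
        rw [htj, hq]; simp [DFA.eval, DFA.evalFrom_of_append]
      rw [← this]; exact hstate.symm
    have hloopk : ∀ k : ℕ, M.evalFrom q (List.replicate k u).flatten = q := by
      intro k
      induction k with
      | zero => simp
      | succ k ih => rw [List.replicate_succ, List.flatten_cons, DFA.evalFrom_of_append, hloop, ih]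
    have hevk : ∀ k : ℕ, ev (List.replicate k u).flatten = (ev u) ^ k := by
      intro k
      induction k with
      | zero => simp [ev]
      | succ k ih => rw [List.replicate_succ, List.flatten_cons, ev_append, ih, pow_succ']
    set w' := w.take i ++ ((List.replicate (m + 1) u).flatten ++ w.drop j) with hw'
    have hw'acc : w' ∈ M.accepts := by
      change M.eval w' ∈ M.accept
      have h1 : M.eval w ∈ M.accept := hw
      have h2 : M.eval w = M.evalFrom q (w.drop j) := by
        conv_lhs => rw [hw_split]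
        rw [DFA.eval, DFA.evalFrom_of_append, DFA.evalFrom_of_append]
        change M.evalFrom (M.evalFrom q u) _ = _
        rw [hloop]
      have h3 : M.eval w' = M.evalFrom q (w.drop j) := by
        rw [hw', DFA.eval, DFA.evalFrom_of_append, DFA.evalFrom_of_append]
        change M.evalFrom (M.evalFrom q _) _ = _
        rw [hloopk]
      rw [h3, ← h2]; exact h1
    have hev : ev w' = ev w := by
      conv_rhs => rw [hw_split]
      rw [hw', ev_append, ev_append, ev_append, ev_append, hevk, pow_succ, hpow', one_mul]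
    have heq : w' = w := hbij.injOn hw'acc hw hev
    have hlen := congrArg List.length heq
    conv_rhs at hlen => rw [hw_split]
    rw [hw'] at hlen
    simp only [List.length_append, List.length_flatten, List.map_replicate, List.sum_replicate,
      smul_eq_mul, hu_len] at hlen
    have hji : 0 < j - i := by omega
    have : (m + 1) * (j - i) = m * (j - i) + (j - i) := by ring
    have h7 : 0 < m * (j - i) := Nat.mul_pos hm hji
    omega
  -- bound the number of small heights
  set N := E * ((2 * D + 1) * Fintype.card σ) + 1 with hN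
  obtain ⟨w, hw, hev⟩ := hbij.surjOn (Set.mem_univ (⟨flipN N, 0, shift_flipN N⟩ : houghtonTwo))
  have hht : ht (ev w) = 0 := by
    rw [hev]
    exact ShiftBy.unique (ht_spec _) (shift_flipN N)
  have hb := crossing_bound X D E hDE w
  rw [hht, hev] at hb
  have hcard : ((Finset.range w.length).filter (fun i => |ht (ev (w.take i))| ≤ (D : ℤ))).card ≤
      (2 * D + 1) * Fintype.card σ := by
    have : ((Finset.Icc (-(D : ℤ)) D) ×ˢ (Finset.univ : Finset σ)).card =
        (2 * D + 1) * Fintype.card σ := by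
      rw [Finset.card_product, Int.card_Icc, Finset.card_univ]
      congr 1
      omega
    rw [← this]
    apply Finset.card_le_card_of_injOn (fun i => (ht (ev (w.take i)), M.eval (w.take i)))
    · intro i hi
      simp only [Finset.coe_filter, Finset.mem_range, Set.mem_ofPred_eq] at hi
      simp only [Finset.coe_product, Set.mem_prod, Finset.coe_Icc, Set.mem_Icc, Finset.coe_univ,
        Set.mem_univ, and_true]
      exact abs_le.1 hi.2
    · intro i hi j hj hij
      simp only [Finset.coe_filter, Finset.mem_range, Set.mem_ofPred_eq] at hi hj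
      simp only [Prod.mk.injEq] at hij
      by_contra hne
      rcases lt_or_gt_of_ne hne with h | h
      · exact key w hw i j h hj.1.le hij.2 hij.1
      · exact key w hw j i h hi.1.le hij.2.symm hij.1.symm
  have h1 := ncard_flipN N
  have h2 : N ≤ E * ((2 * D + 1) * Fintype.card σ) :=
    (h1.trans hb).trans (Nat.mul_le_mul_left E hcard)
  omega


/-! ## Epiregularity -/



theorem ev_mem_closure {G : Type*} [Group G] {X : Finset G} (T : Set G) (w : List X)
    (hw : w ∈ lettersIn {x : X | (x : G) ∈ T}) : ev w ∈ Submonoid.closure T := by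
  induction w with
  | nil => rw [ev_nil]; exact Submonoid.one_mem _
  | cons a w ih =>
    rw [ev_cons]
    rw [mem_lettersIn] at hw
    refine Submonoid.mul_mem _ (Submonoid.subset_closure (hw a (by simp))) (ih ?_)
    rw [mem_lettersIn]
    intro x hx
    exact hw x (by simp [hx])

theorem exists_word {G : Type*} [Group G] {X : Finset G} (T : Set G) (hT : T ⊆ X) {g : G}
    (hg : g ∈ Submonoid.closure T) : ∃ w : List X, w ∈ lettersIn {x : X | (x : G) ∈ T} ∧ ev w = g := by
  induction hg using Submonoid.closure_induction with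
  | mem x hx =>
    refine ⟨[⟨x, hT hx⟩], ?_, by simp [ev_singleton]⟩
    rw [mem_lettersIn]
    intro y hy
    simp only [List.mem_singleton] at hy
    rw [hy]; exact hx
  | one => exact ⟨[], by rw [mem_lettersIn]; simp, ev_nil⟩
  | mul x y _ _ hx hy =>
    obtain ⟨u, hu, rfl⟩ := hx
    obtain ⟨v, hv, rfl⟩ := hy
    refine ⟨u ++ v, ?_, ev_append u v⟩
    rw [mem_lettersIn] at hu hv ⊢
    intro z hz
    rcases List.mem_append.1 hz with h | h
    · exact hu z h
    · exact hv z h

theorem closure_submonoid_of_inv {G : Type*} [Group G] (S : Set G) (hS : ∀ x ∈ S, x⁻¹ ∈ S) {g : G}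
    (hg : g ∈ Subgroup.closure S) : g ∈ Submonoid.closure S := by
  have h1 : S⁻¹ ⊆ S := by
    intro x hx
    have := hS _ (Set.mem_inv.1 hx)
    simpa using this
  have h2 : g ∈ (Subgroup.closure S).toSubmonoid := hg
  rw [Subgroup.closure_toSubmonoid, Set.union_eq_self_of_subset_right h1] at h2
  exact h2

theorem swap_mem_houghton (x y : ℤ) : swap x y ∈ houghtonTwo := by
  refine ⟨0, (Set.toFinite ({x, y} : Set ℤ)).subset ?_⟩
  intro j hj
  by_contra hcon
  apply hj
  simp only [Set.mem_insert_iff, Set.mem_singleton_iff, not_or] at hcon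
  rw [swap_apply_of_ne_of_ne hcon.1 hcon.2]; simp

/-- translation as an element of the group -/
def gt : houghtonTwo := ⟨tt, 1, shift_tt⟩
/-- translation skipping `0`, `1` -/
def gs : houghtonTwo := ⟨ss, 1, shift_ss⟩
/-- the transposition `(2 3)` -/
def gc : houghtonTwo := ⟨swap 2 3, swap_mem_houghton 2 3⟩
/-- the transposition `(1 2)` -/
def gr : houghtonTwo := ⟨swap 1 2, swap_mem_houghton 1 2⟩

open Classical in
/-- the alphabet -/
noncomputable def alph : Finset houghtonTwo := {gt, gt⁻¹, gs, gs⁻¹, gc, gr}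

/-- letters of translation type -/
def T1 : Set houghtonTwo := {gt, gt⁻¹}
/-- letters generating the stabiliser of `0` and `1` -/
def S1 : Set houghtonTwo := {gs, gs⁻¹, gc}

theorem T1_sub : T1 ⊆ alph := by
  intro x hx
  rcases hx with rfl | rfl <;> simp [alph]

theorem S1_sub : S1 ⊆ alph := by
  intro x hx
  rcases hx with rfl | rfl | rfl <;> simp [alph]

theorem gc_inv : gc⁻¹ = gc := Subtype.ext (swap_inv _ _)

theorem T1_inv : ∀ x ∈ T1, x⁻¹ ∈ T1 := by
  intro x hx
  rcases hx with rfl | rfl <;> simp [T1]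

theorem S1_inv : ∀ x ∈ S1, x⁻¹ ∈ S1 := by
  intro x hx
  rcases hx with rfl | rfl | rfl <;> simp [S1, gc_inv]

theorem zpow_mem_T1 (n : ℤ) : gt ^ n ∈ Submonoid.closure T1 := by
  apply closure_submonoid_of_inv _ T1_inv
  exact Subgroup.zpow_mem _ (Subgroup.subset_closure (by simp [T1])) n

theorem stab_mem_S1 {g : houghtonTwo} (g0 : g.1 0 = 0) (g1 : g.1 1 = 1) :
    g ∈ Submonoid.closure S1 := by
  apply closure_submonoid_of_inv _ S1_inv
  have := mem_of_stab ((Subgroup.closure S1).map houghtonTwo.subtype)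
    ⟨gs, Subgroup.subset_closure (by simp [S1]), rfl⟩
    ⟨gc, Subgroup.subset_closure (by simp [S1]), rfl⟩ g.2 g0 g1
  obtain ⟨g', hg', he⟩ := this
  have : g' = g := Subtype.ext he
  rw [← this]; exact hg'

theorem mem_T1_zpow {g : houghtonTwo} (hg : g ∈ Submonoid.closure T1) : ∃ n : ℤ, g = gt ^ n := by
  induction hg using Submonoid.closure_induction with
  | mem x hx =>
    rcases hx with rfl | rfl
    · exact ⟨1, by simp⟩
    · exact ⟨-1, by simp⟩
  | one => exact ⟨0, by simp⟩
  | mul x y _ _ hx hy =>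
    obtain ⟨n, rfl⟩ := hx
    obtain ⟨m, rfl⟩ := hy
    exact ⟨n + m, by rw [zpow_add]⟩

theorem mem_S1_stab {g : houghtonTwo} (hg : g ∈ Submonoid.closure S1) :
    g.1 0 = 0 ∧ g.1 1 = 1 := by
  have hs0 : ss 0 = 0 := rfl
  have hs1 : ss 1 = 1 := rfl
  have hs0' : ss⁻¹ 0 = 0 := rfl
  have hs1' : ss⁻¹ 1 = 1 := rfl
  have hc0 : (swap (2:ℤ) 3) 0 = 0 := swap_apply_of_ne_of_ne (by decide) (by decide)
  have hc1 : (swap (2:ℤ) 3) 1 = 1 := swap_apply_of_ne_of_ne (by decide) (by decide)
  induction hg using Submonoid.closure_induction with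
  | mem x hx =>
    rcases hx with rfl | rfl | rfl
    · exact ⟨hs0, hs1⟩
    · exact ⟨hs0', hs1'⟩
    · exact ⟨hc0, hc1⟩
  | one => exact ⟨rfl, rfl⟩
  | mul x y _ _ hx hy =>
    constructor
    · change x.1 (y.1 0) = 0
      rw [hy.1, hx.1]
    · change x.1 (y.1 1) = 1
      rw [hy.2, hx.2]

theorem closure_alph : Submonoid.closure (alph : Set houghtonTwo) = ⊤ := by
  have hinv : ∀ x ∈ (alph : Set houghtonTwo), x⁻¹ ∈ (alph : Set houghtonTwo) := by
    have hr : gr⁻¹ = gr := Subtype.ext (swap_inv _ _)
    intro x hx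
    simp only [alph, Finset.coe_insert, Finset.coe_singleton, Set.mem_insert_iff,
      Set.mem_singleton_iff] at hx
    rcases hx with rfl | rfl | rfl | rfl | rfl | rfl <;> simp [alph, gc_inv, hr]
  rw [eq_top_iff]
  intro g _
  apply closure_submonoid_of_inv _ hinv
  have ht : gt ∈ Subgroup.closure (alph : Set houghtonTwo) :=
    Subgroup.subset_closure (by simp [alph])
  have hr : gr ∈ Subgroup.closure (alph : Set houghtonTwo) :=
    Subgroup.subset_closure (by simp [alph])
  have := mem_of_houghton ((Subgroup.closure (alph : Set houghtonTwo)).map houghtonTwo.subtype)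
    ⟨gt, ht, rfl⟩
    ⟨gt⁻¹ * gr * gt, Subgroup.mul_mem _ (Subgroup.mul_mem _ (Subgroup.inv_mem _ ht) hr) ht, by
      change tt⁻¹ * swap 1 2 * tt = swap 0 1
      have := swap_apply_apply tt⁻¹ (1 : ℤ) 2
      have h1 : tt⁻¹ 1 = 0 := rfl
      have h2 : tt⁻¹ 2 = 1 := rfl
      rw [h1, h2] at this
      rw [this, inv_inv]⟩ g.2
  obtain ⟨g', hg', he⟩ := this
  have : g' = g := Subtype.ext he
  rw [← this]; exact hg'

/-- letter sets -/
def lT : Set alph := {x : alph | (x : houghtonTwo) ∈ T1}
/-- letter sets -/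
def lS : Set alph := {x : alph | (x : houghtonTwo) ∈ S1}

theorem gt_mem : gt ∈ alph := by simp [alph]
theorem gti_mem : gt⁻¹ ∈ alph := by simp [alph]
theorem gr_mem : gr ∈ alph := by simp [alph]

/-- the main regular language -/
noncomputable def mainL : Language alph :=
  lettersIn lT * (lettersIn lS * (singleWord (⟨gr, gr_mem⟩ : alph) * (lettersIn lS * lettersIn lT)))
    + (plusIn ({⟨gt, gt_mem⟩} : Set alph) + plusIn ({⟨gt⁻¹, gti_mem⟩} : Set alph))

theorem mainL_regular : mainL.IsRegular := by
  refine Language.IsRegular.add ?_ ((isRegular_plusIn _).add (isRegular_plusIn _))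
  exact isRegular_mul (isRegular_lettersIn _) (isRegular_mul (isRegular_lettersIn _)
    (isRegular_mul (isRegular_single _) (isRegular_mul (isRegular_lettersIn _)
      (isRegular_lettersIn _))))

theorem ev_plus {G : Type*} [Group G] {X : Finset G} (x : X) (w : List X)
    (hw : w ∈ plusIn ({x} : Set X)) : ∃ n : ℕ, 0 < n ∧ ev w = (x : G) ^ n := by
  refine ⟨w.length, List.length_pos_iff.2 hw.1, ?_⟩
  have : w = List.replicate w.length x := List.eq_replicate_of_mem (fun b hb => hw.2 b hb)
  rw [this]
  simp [ev]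

theorem plus_word {G : Type*} [Group G] {X : Finset G} (x : X) (n : ℕ) (hn : 0 < n) :
    ∃ w : List X, w ∈ plusIn ({x} : Set X) ∧ ev w = (x : G) ^ n := by
  refine ⟨List.replicate n x, ⟨?_, ?_⟩, by simp [ev]⟩
  · intro h
    have := congrArg List.length h
    simp at this; omega
  · intro y hy
    exact List.eq_of_mem_replicate hy

theorem gt_pow_val (n : ℤ) : (gt ^ n : houghtonTwo).1 = tt ^ n := by
  simp [gt]

theorem mainL_image : ev '' (mainL : Set (List alph)) = ({1} : Set houghtonTwo)ᶜ := by
  ext g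
  constructor
  · rintro ⟨w, hw, rfl⟩
    rw [Set.mem_compl_iff, Set.mem_singleton_iff]
    rcases (Language.mem_add _ _ _).1 hw with hw | hw
    · obtain ⟨w1, h1, wa, hwa, rfl⟩ := Language.mem_mul.1 hw
      obtain ⟨w2, h2, wb, hwb, rfl⟩ := Language.mem_mul.1 hwa
      obtain ⟨w3, h3, wc, hwc, rfl⟩ := Language.mem_mul.1 hwb
      obtain ⟨w4, h4, w5, h5, rfl⟩ := Language.mem_mul.1 hwc
      have h3' : w3 = [(⟨gr, gr_mem⟩ : alph)] := h3
      subst h3'
      obtain ⟨a, ha⟩ := mem_T1_zpow (ev_mem_closure T1 w1 h1)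
      obtain ⟨b, hb⟩ := mem_T1_zpow (ev_mem_closure T1 w5 h5)
      obtain ⟨u0, u1⟩ := mem_S1_stab (ev_mem_closure S1 w2 h2)
      obtain ⟨v0, v1⟩ := mem_S1_stab (ev_mem_closure S1 w4 h4)
      rw [ev_append, ev_append, ev_append, ev_append, ev_singleton, ha, hb]
      intro hone
      have hval := congrArg Subtype.val hone
      apply nontriv (a := a) (b := b) u0 u1 v0 v1
      have : (gt ^ a * (ev w2 * ((⟨gr, gr_mem⟩ : alph) * (ev w4 * gt ^ b))) : houghtonTwo).1 =
          tt ^ a * (ev w2).1 * swap 1 2 * (ev w4).1 * tt ^ b := by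
        change (gt ^ a : houghtonTwo).1 * ((ev w2).1 * (swap 1 2 * ((ev w4).1 *
          (gt ^ b : houghtonTwo).1))) = _
        rw [gt_pow_val, gt_pow_val]
        simp only [mul_assoc]
      rw [← this]
      exact hval
    · rcases (Language.mem_add _ _ _).1 hw with hw | hw
      · obtain ⟨n, hn, he⟩ := ev_plus _ _ hw
        rw [he]
        intro hone
        have hval := congrArg Subtype.val hone
        have h1 : (gt ^ n : houghtonTwo).1 = tt ^ (n : ℤ) := by
          rw [← gt_pow_val, zpow_natCast]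
        apply tt_zpow_ne_one (n := (n : ℤ)) (by omega)
        rw [← h1]; exact hval
      · obtain ⟨n, hn, he⟩ := ev_plus _ _ hw
        rw [he]
        intro hone
        have hval := congrArg Subtype.val hone
        have h1 : ((gt⁻¹) ^ n : houghtonTwo).1 = tt ^ (-(n : ℤ)) := by
          rw [← gt_pow_val, zpow_neg, zpow_natCast, inv_pow]
        apply tt_zpow_ne_one (n := -(n : ℤ)) (by omega)
        rw [← h1]; exact hval
  · intro hg
    rw [Set.mem_compl_iff, Set.mem_singleton_iff] at hg
    rcases decomp g.2 with ⟨n, hn⟩ | ⟨a, b, u, v, hu, hv, u0, u1, v0, v1, he⟩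
    · have hgn : g = gt ^ n := Subtype.ext (by rw [gt_pow_val]; exact hn)
      rcases lt_trichotomy n 0 with h | h | h
      · obtain ⟨w, hw, hev⟩ := plus_word (⟨gt⁻¹, gti_mem⟩ : alph) (-n).toNat (by omega)
        refine ⟨w, (Language.mem_add _ _ _).2 (Or.inr ((Language.mem_add _ _ _).2 (Or.inr hw))), ?_⟩
        rw [hev, hgn]
        change (gt⁻¹) ^ (-n).toNat = gt ^ n
        rw [inv_pow, ← zpow_natCast, Int.toNat_of_nonneg (by omega), zpow_neg, inv_inv]
      · exfalso; apply hg; rw [hgn, h, zpow_zero]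
      · obtain ⟨w, hw, hev⟩ := plus_word (⟨gt, gt_mem⟩ : alph) n.toNat (by omega)
        refine ⟨w, (Language.mem_add _ _ _).2 (Or.inr ((Language.mem_add _ _ _).2 (Or.inl hw))), ?_⟩
        rw [hev, hgn]
        change gt ^ n.toNat = gt ^ n
        rw [← zpow_natCast, Int.toNat_of_nonneg (by omega)]
    · obtain ⟨w1, h1, e1⟩ := exists_word T1 T1_sub (zpow_mem_T1 a)
      obtain ⟨w5, h5, e5⟩ := exists_word T1 T1_sub (zpow_mem_T1 b)
      obtain ⟨w2, h2, e2⟩ := exists_word S1 S1_sub (stab_mem_S1 (g := ⟨u, hu⟩) u0 u1)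
      obtain ⟨w4, h4, e4⟩ := exists_word S1 S1_sub (stab_mem_S1 (g := ⟨v, hv⟩) v0 v1)
      refine ⟨w1 ++ (w2 ++ ([(⟨gr, gr_mem⟩ : alph)] ++ (w4 ++ w5))), ?_, ?_⟩
      · refine (Language.mem_add _ _ _).2 (Or.inl ?_)
        refine Language.mem_mul.2 ⟨w1, h1, _, ?_, rfl⟩
        refine Language.mem_mul.2 ⟨w2, h2, _, ?_, rfl⟩
        refine Language.mem_mul.2 ⟨_, rfl, _, ?_, rfl⟩
        exact Language.mem_mul.2 ⟨w4, h4, w5, h5, rfl⟩
      · rw [ev_append, ev_append, ev_append, ev_append, ev_singleton, e1, e2, e4, e5]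
        apply Subtype.ext
        change (gt ^ a : houghtonTwo).1 * (u * (swap 1 2 * (v * (gt ^ b : houghtonTwo).1))) = g.1
        rw [gt_pow_val, gt_pow_val, he]
        simp only [mul_assoc]

theorem nil_notMem_mainL : [] ∉ mainL := by
  intro h
  have h1 : ev ([] : List alph) ∈ ev '' (mainL : Set (List alph)) := ⟨[], h, rfl⟩
  rw [mainL_image] at h1
  exact h1 rfl


/-! ## The result -/

/-- Houghton's group `H₂` is finitely generated and epiRegular, and it has no rational cross
section. -/
theorem result :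
    Group.FG houghtonTwo ∧ EpiRegular houghtonTwo ∧ ¬ HasRationalCrossSection houghtonTwo := by
  refine ⟨?_, ⟨alph, closure_alph, mainL, mainL_regular, nil_notMem_mainL, mainL_image⟩, ?_⟩
  · rw [Group.fg_iff_monoid_fg]
    exact ⟨⟨alph, closure_alph⟩⟩
  · rintro ⟨X, -, L, hL, hbij⟩
    exact no_cross X L hL hbij

end Pool.Agent.Results.MP_cfc732_al.HoughtonTwo
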